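import Pool.Agent.MQG.StmtsC

set_option autoImplicit false

/-!
# LTD: `λ~(L^1(G))` is a dense subspace of `C_0(G^)`
-/

namespace Pool.Agent.MQG.H20

open scoped InnerProductSpace InnerProduct Topology ComplexConjugate
open Complex Filter

variable {κ ι : Type}

/-- The functional `a ↦ ⟪x, Λ a z⟫`. -/
noncomputable def om {WW : Op (κ × ι)} (L : Al WW →⋆ₙₐ[ℂ] Op ι) (x z : L2 ι) : Du WW :=
  LinearMap.mkContinuous
    { toFun := fun a => ⟪x, L a z⟫_ℂ
      map_add' := fun a b => by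
        rw [map_add, ContinuousLinearMap.add_apply, inner_add_right]
      map_smul' := fun c a => by
        rw [map_smul, ContinuousLinearMap.smul_apply, inner_smul_right]
        rfl }
    (‖x‖ * ‖z‖) (fun a => by
      have h1 : ‖L a‖ ≤ ‖a‖ := NonUnitalStarAlgHom.norm_apply_le L a
      calc ‖⟪x, L a z⟫_ℂ‖ ≤ ‖x‖ * ‖L a z‖ := norm_inner_le_norm _ _
        _ ≤ ‖x‖ * (‖a‖ * ‖z‖) := by
            refine mul_le_mul_of_nonneg_left ?_ (norm_nonneg _)
            exact ((L a).le_opNorm z).trans (mul_le_mul_of_nonneg_right h1 (norm_nonneg _))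
        _ = ‖x‖ * ‖z‖ * ‖a‖ := by ring)

theorem om_apply {WW : Op (κ × ι)} (L : Al WW →⋆ₙₐ[ℂ] Op ι) (x z : L2 ι) (a : Al WW) :
    om L x z a = ⟪x, L a z⟫_ℂ := rfl

theorem norm_om_le {WW : Op (κ × ι)} (L : Al WW →⋆ₙₐ[ℂ] Op ι) (x z : L2 ι) :
    ‖om L x z‖ ≤ ‖x‖ * ‖z‖ :=
  LinearMap.mkContinuous_norm_le _ (by positivity) _

/-- The functionals `a ↦ ⟪x, Λ a z⟫` as a bounded sesquilinear map. -/
noncomputable def omL {WW : Op (κ × ι)} (L : Al WW →⋆ₙₐ[ℂ] Op ι) :
    L2 ι →L⋆[ℂ] L2 ι →L[ℂ] Du WW :=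
  LinearMap.mkContinuous₂
    (LinearMap.mk₂'ₛₗ (starRingEnd ℂ) (RingHom.id ℂ) (fun x z => om L x z)
      (fun u u' y => by
        ext a
        rw [ContinuousLinearMap.add_apply, om_apply, om_apply, om_apply, inner_add_left])
      (fun r u y => by
        ext a
        rw [ContinuousLinearMap.smul_apply, om_apply, om_apply, inner_smul_left]
        rfl)
      (fun u y y' => by
        ext a
        rw [ContinuousLinearMap.add_apply, om_apply, om_apply, om_apply, map_add, inner_add_right])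
      (fun r u y => by
        ext a
        rw [ContinuousLinearMap.smul_apply, om_apply, om_apply, map_smul, inner_smul_right]
        rfl))
    1 (fun x z => by
      have h := norm_om_le L x z
      rw [one_mul]
      exact h)

theorem omL_apply {WW : Op (κ × ι)} (L : Al WW →⋆ₙₐ[ℂ] Op ι) (x z : L2 ι) :
    omL L x z = om L x z := rfl

/-- `λ(ω_(x,z))` is the slice of `W`. -/
theorem lam_om {W : Op (ι × ι)} {WW : Op (κ × ι)} (L : Al WW →⋆ₙₐ[ℂ] Op ι)
    (hL : ∀ u y, L (asl WW u y) = sl W u y) (x z : L2 ι) :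
    lam WW (om L x z) = co W x z := by
  ext y : 1
  refine ext_inner_left ℂ fun u => ?_
  rw [inner_lam, om_apply, hL, inner_sl_co]

/-- `λ~` as a bounded linear map. -/
noncomputable def lamtL (V : ℝ → Op ι) (U : Op (κ × ι))
    (h1 : ∀ μ ν, lamt V U (μ + ν) = lamt V U μ + lamt V U ν)
    (h2 : ∀ (c : ℂ) μ, lamt V U (c • μ) = c • lamt V U μ)
    (h3 : ∀ μ, ‖lamt V U μ‖ ≤ ‖μ‖) : Du U →L[ℂ] Op ι :=
  LinearMap.mkContinuous
    { toFun := fun μ => lamt V U μ
      map_add' := h1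
      map_smul' := h2 }
    1 (fun μ => by
      rw [one_mul]
      exact h3 μ)

theorem ltd (shc : ShcStmt) (lts : LtsStmt) (abx : AbxStmt) : LtdStmt := by
  intro ι M κ WW hW
  obtain ⟨-, hshp, hn, hadd, hsmul, -, -⟩ := lts ι M κ WW hW.adapted
  obtain ⟨T, hT⟩ : ∃ T : Du WW →L[ℂ] Op ι, ∀ μ, T μ = lamt M.V WW μ :=
    ⟨lamtL M.V WW hadd hsmul hn, fun _ => rfl⟩
  -- the values of `λ~` at the functionals of trajectories
  have hval : ∀ (L : Al WW →⋆ₙₐ[ℂ] Op ι), (∀ u y, L (asl WW u y) = sl M.W u y) →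
      ∀ f g : ℂ → L2 ι, Traj M.V f → Traj M.V g →
      lamt M.V WW (om L (f 0) (g 0)) =
        co M.W (f (-(I * ((1 / 4 : ℝ) : ℂ)))) (g (I * ((1 / 4 : ℝ) : ℂ))) := by
    intro L hL f g hf hg
    have h1 := shc ι M (1 / 4) f g hf hg
    rw [← lam_om L hL] at h1
    exact ((hshp _ _).1 h1).symm
  -- the closed subspace `Balg W`
  obtain ⟨P, hP⟩ : ∃ P : Submodule ℂ (Op ι), ∀ b, b ∈ P ↔ b ∈ Balg M.W :=
    ⟨(Balg M.W).toNonUnitalSubalgebra.toSubmodule, fun _ => Iff.rfl⟩
  have hPc : IsClosed (P : Set (Op ι)) := by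
    have h1 : (P : Set (Op ι)) = (Balg M.W : Set (Op ι)) := Set.ext fun b => hP b
    rw [h1]
    exact isClosed_Balg M.W
  have hco : ∀ x z, co M.W x z ∈ P := fun x z => (hP _).2
    (NonUnitalStarSubalgebra.le_topologicalClosure _
      (NonUnitalStarAlgebra.subset_adjoin ℂ _ ⟨x, z, rfl⟩))
  have hom : ∀ (L : Al WW →⋆ₙₐ[ℂ] Op ι), (∀ u y, L (asl WW u y) = sl M.W u y) →
      ∀ x z, T (om L x z) ∈ P := by
    intro L hL x z
    exact (total_traj M.V_group 0).sesq_mem (total_traj M.V_group 0)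
      (((ContinuousLinearMap.compL ℂ (L2 ι) (Du WW) (Op ι)) T).comp (omL L)) P hPc (by
        rintro _ ⟨f, hf, rfl⟩ _ ⟨g, hg, rfl⟩
        change T (om L (f 0) (g 0)) ∈ P
        rw [hT, hval L hL f g hf hg]
        exact hco _ _) x z
  have hL1 : L1 M.W WW ≤ P.comap (T : Du WW →ₗ[ℂ] Op ι) := by
    refine Submodule.topologicalClosure_minimal _ (Submodule.span_le.2 ?_)
      (hPc.preimage T.continuous)
    rintro ω ⟨L, hL, x, z, hω⟩
    have h1 : ω = om L x z := by
      ext a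
      rw [hω, om_apply]
    change T ω ∈ P
    rw [h1]
    exact hom L hL x z
  refine ⟨fun ω hω => ?_, fun b hb => ?_⟩
  · have h1 := hL1 hω
    change T ω ∈ P at h1
    rw [hT] at h1
    exact (hP _).1 h1
  · obtain ⟨L, hL⟩ := hW.lift ι M.W ⟨M.W_unitary, M.pentagon⟩
    have hb1 : b ∈ CoSp M.W := ((abx ι M).1 b).1 hb
    obtain ⟨S, hS⟩ : ∃ S : Submodule ℂ (Op ι), S =
      ((L1 M.W WW).map (T : Du WW →ₗ[ℂ] Op ι)).topologicalClosure := ⟨_, rfl⟩
    have hSc : IsClosed (S : Set (Op ι)) := by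
      rw [hS]
      exact Submodule.isClosed_topologicalClosure _
    have h2 : ∀ x z, co M.W x z ∈ S := fun x z =>
      co_mem_of_total (total_traj M.V_group (-(I * ((1 / 4 : ℝ) : ℂ))))
        (total_traj M.V_group (I * ((1 / 4 : ℝ) : ℂ))) M.W S hSc (by
          rintro _ ⟨f, hf, rfl⟩ _ ⟨g, hg, rfl⟩
          rw [← hval L hL f g hf hg, ← hT, hS]
          refine Submodule.le_topologicalClosure _ ?_
          refine Submodule.mem_map_of_mem (f := (T : Du WW →ₗ[ℂ] Op ι)) ?_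
          exact Submodule.le_topologicalClosure _ (Submodule.subset_span
            ⟨L, hL, f 0, g 0, fun a => rfl⟩)) x z
    have h3 : b ∈ S := by
      have h4 : CoSp M.W ≤ S := by
        refine Submodule.topologicalClosure_minimal _ (Submodule.span_le.2 ?_) hSc
        rintro _ ⟨x, z, rfl⟩
        exact h2 x z
      exact h4 hb1
    have h5 : (S : Set (Op ι)) = closure (lamt M.V WW '' (L1 M.W WW : Set (Du WW))) := by
      rw [hS, Submodule.topologicalClosure_coe, Submodule.map_coe]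
      have h6 : (fun μ : Du WW => (T : Du WW →ₗ[ℂ] Op ι) μ) = lamt M.V WW := by
        funext μ
        exact hT μ
      change closure ((fun μ : Du WW => (T : Du WW →ₗ[ℂ] Op ι) μ) '' _) = _
      rw [h6]
    have h7 : b ∈ (S : Set (Op ι)) := h3
    rw [h5] at h7
    exact h7

end Pool.Agent.MQG.H20
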